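import Pool.Agent.N461.CN.Thm

/-!
# Edges of `K_5^3`-free 3-graphs have small codegree sums on average

In Turán's construction for `K_5^3` (two equal parts, all triples which meet both) every edge
`xyz` has a pair with codegree `n/2` and two pairs with codegree `n - 2`. It is proved that no
`K_5^3`-free 3-graph has larger codegrees on the average edge: for every real `p` with
`2 ≤ p ≤ 7/2` and every `K_5^3`-free 3-graph `H` on `n` vertices
`∑ d(x,y)^p ≤ 4 (1 + 2^(-p)) n^(p-1) |H|`, the sum over the ordered pairs of vertices. (For `p = 2`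
this says that the mean over the edges `xyz` of `d(x,y) + d(x,z) + d(y,z)` is at most `5n/2`; so
there is an edge whose codegree sum is at most `5n/2`.) The inequality is stable: the left side may
be increased by `8 n^(p-4)` times the number of the sets of six vertices on which `H` does not look
like Turán's construction.
-/

set_option autoImplicit false
open Finset
open scoped Classical

namespace Pool.Agent.Results.MP_555f9b_co.FiveCliqueDegreeSums

/-- No `m` vertices of the 3-graph `H` span all their triples. -/
def CliqueFree {n : ℕ} (m : ℕ) (H : Finset (Finset (Fin n))) : Prop :=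
  ∀ S : Finset (Fin n), S.card = m → ∃ s ⊆ S, s.card = 3 ∧ s ∉ H

/-- The number of vertices `z` such that `{x, y, z}` is an edge of `H`: the codegree of the pair
`x`, `y`.  It is `0` for `x = y`, since the edges of `H` have three elements. -/
noncomputable def codegree {n : ℕ} (H : Finset (Finset (Fin n))) (x y : Fin n) : ℕ :=
  (univ.filter fun z => {x, y, z} ∈ H).card

/-- The sum of the `p`-th powers of the codegrees of all ordered pairs. -/
noncomputable def powerSum {n : ℕ} (p : ℝ) (H : Finset (Finset (Fin n))) : ℝ :=
  ∑ x : Fin n, ∑ y : Fin n, (codegree H x y : ℝ) ^ p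

/-- On the vertex set `S` the 3-graph `H` is a complete bipartite 3-graph: the triples of `H` in
`S` are the triples in `S` which meet both `A` and its complement. -/
def Bipartite {n : ℕ} (H : Finset (Finset (Fin n))) (S : Finset (Fin n)) : Prop :=
  ∃ A : Finset (Fin n), ∀ e ⊆ S, e.card = 3 → (e ∈ H ↔ (∃ x ∈ e, x ∈ A) ∧ ∃ x ∈ e, x ∉ A)

/-- The number of the sets of six vertices on which `H` is not a complete bipartite 3-graph. -/
noncomputable def badSets {n : ℕ} (H : Finset (Finset (Fin n))) : ℕ :=
  ((univ.powersetCard 6).filter fun S => ¬ Bipartite H S).card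

/-- Turán's construction: the triples not contained in a residue class modulo `k`. -/
noncomputable def turan (k n : ℕ) : Finset (Finset (Fin n)) :=
  univ.filter fun e => e.card = 3 ∧ ∃ x ∈ e, ∃ y ∈ e, x.val % k ≠ y.val % k

/-- **The `p`-th powers of the codegrees against the number of edges in `K_5^3`-free 3-graphs,
`2 ≤ p ≤ 7/2`.** The upper bound, with stability, holds for every `n`, and Turán's construction
shows that the constant is best possible. -/
theorem result (p : ℝ) (hp : 2 ≤ p) (hp2 : p ≤ 7 / 2) :
    (∀ (n : ℕ) (H : Finset (Finset (Fin n))), (∀ e ∈ H, e.card = 3) → CliqueFree 5 H →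
      powerSum p H + 8 * (n : ℝ) ^ (p - 4) * (badSets H : ℝ) ≤
        (4 + 4 * (1 / 2 : ℝ) ^ p) * (n : ℝ) ^ (p - 1) * (H.card : ℝ)) ∧
    (∀ n : ℕ, (∀ e ∈ turan 2 n, e.card = 3) ∧ CliqueFree 5 (turan 2 n)) ∧
    ∀ c : ℝ, c < 4 + 4 * (1 / 2 : ℝ) ^ p → ∃ N : ℕ, ∀ n : ℕ, N ≤ n →
      c * (n : ℝ) ^ (p - 1) * ((turan 2 n).card : ℝ) < powerSum p (turan 2 n) := by
  refine ⟨fun n H h3 hF => N461.CN.ratio_fin h3 hF p hp hp2,
    fun n => ⟨TH200.LP.tur_card 2 n, TH200.LP.tur_free 2 n (by norm_num)⟩, fun c hc => ?_⟩
  exact N461.CN.tur_ratio p (by linarith) c hc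

end Pool.Agent.Results.MP_555f9b_co.FiveCliqueDegreeSums
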