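import Pool.Agent.N461.CN.Thm

/-!
# Turán's problem for the complete 3-graph on five vertices in the norms `ℓ_p`, `p ≥ 1.94`

The classical problem maximises `∑ d(x,y)` over the 3-graphs without a complete subgraph on five
vertices, `d(x,y)` being the codegree. Here `∑ d(x,y)^p` is maximised. For every real `p ≥ 1.94`,
every 3-graph on `n` vertices without a complete subgraph on five vertices satisfies
`∑ d(x,y)^p ≤ (1/2 + 2^(-p-1)) n^(p+2)`, the sum over all ordered pairs of vertices, and the
constant is attained asymptotically by Turán's construction with two parts. Moreover the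
inequality is stable: the left side may be increased by `n^(p-4)/4` times the number of the sets
of six vertices on which the 3-graph does not look like Turán's construction.
-/

set_option autoImplicit false
open Finset
open scoped Classical

namespace Pool.Agent.Results.MP_555f9b_co.FiveCliqueNorms

/-- No `m` vertices of the 3-graph `H` span all their triples. -/
def CliqueFree {n : ℕ} (m : ℕ) (H : Finset (Finset (Fin n))) : Prop :=
  ∀ S : Finset (Fin n), S.card = m → ∃ s ⊆ S, s.card = 3 ∧ s ∉ H

/-- The number of vertices `z` such that `{x, y, z}` is an edge of `H`: the codegree of the pair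
`x`, `y`.  It is `0` for `x = y`, since the edges of `H` have three elements. -/
noncomputable def codegree {n : ℕ} (H : Finset (Finset (Fin n))) (x y : Fin n) : ℕ :=
  (univ.filter fun z => {x, y, z} ∈ H).card

/-- The sum of the `p`-th powers of the codegrees of all ordered pairs. -/
noncomputable def powerSum {n : ℕ} (p : ℝ) (H : Finset (Finset (Fin n))) : ℝ :=
  ∑ x : Fin n, ∑ y : Fin n, (codegree H x y : ℝ) ^ p

/-- On the vertex set `S` the 3-graph `H` is a complete bipartite 3-graph: the triples of `H` in
`S` are the triples in `S` which meet both `A` and its complement. -/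
def Bipartite {n : ℕ} (H : Finset (Finset (Fin n))) (S : Finset (Fin n)) : Prop :=
  ∃ A : Finset (Fin n), ∀ e ⊆ S, e.card = 3 → (e ∈ H ↔ (∃ x ∈ e, x ∈ A) ∧ ∃ x ∈ e, x ∉ A)

/-- The number of the sets of six vertices on which `H` is not a complete bipartite 3-graph. -/
noncomputable def badSets {n : ℕ} (H : Finset (Finset (Fin n))) : ℕ :=
  ((univ.powersetCard 6).filter fun S => ¬ Bipartite H S).card

/-- Turán's construction: the triples not contained in a residue class modulo `k`. -/
noncomputable def turan (k n : ℕ) : Finset (Finset (Fin n)) :=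
  univ.filter fun e => e.card = 3 ∧ ∃ x ∈ e, ∃ y ∈ e, x.val % k ≠ y.val % k

/-- **Turán's problem for `K_5^3` in the norm `ℓ_p`, `p ≥ 1.94`.** The upper bound, with
stability, holds for every `n`, and Turán's construction is asymptotically extremal. -/
theorem result (p : ℝ) (hp : 1.94 ≤ p) :
    (∀ (n : ℕ) (H : Finset (Finset (Fin n))), (∀ e ∈ H, e.card = 3) → CliqueFree 5 H →
      powerSum p H + 1 / 4 * (n : ℝ) ^ (p - 4) * (badSets H : ℝ) ≤
        (1 + (1 / 2 : ℝ) ^ p) / 2 * (n : ℝ) ^ (p + 2)) ∧
    (∀ n : ℕ, (∀ e ∈ turan 2 n, e.card = 3) ∧ CliqueFree 5 (turan 2 n)) ∧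
    ∀ c : ℝ, c < (1 + (1 / 2 : ℝ) ^ p) / 2 → ∃ N : ℕ, ∀ n : ℕ, N ≤ n →
      c * (n : ℝ) ^ (p + 2) < powerSum p (turan 2 n) := by
  refine ⟨fun n H h3 hF => N461.CN.lp_fin h3 hF p (by norm_num at hp ⊢; linarith),
    fun n => ⟨TH200.LP.tur_card 2 n, TH200.LP.tur_free 2 n (by norm_num)⟩, fun c hc => ?_⟩
  refine TH200.LP.lower 2 le_rfl p (by norm_num at hp; linarith) c ?_
  refine lt_of_lt_of_eq hc ?_
  push_cast
  have : (1 - 1 / (2 : ℝ)) = 1 / 2 := by norm_num
  rw [this]
  ring

end Pool.Agent.Results.MP_555f9b_co.FiveCliqueNorms
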